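import Pool.Agent.H612.AffMain

/-!
# Affine polynomial projection is `∃ℝ`-hard, even for quartic forms

The instances of the reduction are `f = x₀² x₁²` and `g = x₀² x₁² - ∑ qᵢ²`, where the `qᵢ` are the
homogenised quadratic constraints of a system of polynomial equations: a real solution gives a
matrix `A` with `f(x) = g(A x)`, and conversely if `f(x) = g(A x + b)` for all `x`, then
a consideration of the top-degree parts on a suitable plane gives a real solution. So the
hardness does not rest on degenerate instances such as `f = 0`.
-/

namespace Pool.Agent.Results.MP_ca1301_lc.QuarticFormsHard

open Pool.Agent.NPC Pool.Agent.NPC.H612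

/-- Affine polynomial projection is `∃ℝ`-hard, even for `f = x₀² x₁²` and quartic forms `g`. -/
theorem result : ERHardWithin QuarticInstance AffineProjection := affine_hard

end Pool.Agent.Results.MP_ca1301_lc.QuarticFormsHard
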